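import Pool.Agent.P.MP_3426c0_an.HEq
import Pool.Agent.P.MP_3426c0_an.Twist

set_option autoImplicit false

namespace Pool.Agent.Results.MP_3426c0_an.SameCayleyGraph

open Pool.Agent.P.MP_3426c0_an

theorem result :
    ∃ (G : Type) (_ : TopologicalSpace G) (_ : Group G) (_ : IsTopologicalGroup G),
      LocallyCompactSpace G ∧ T2Space G ∧ SecondCountableTopology G ∧
      TotallyDisconnectedSpace G ∧ (∃ K : Set G, IsCompact K ∧ Subgroup.closure K = ⊤) ∧
      ∃ Γ₁ Γ₂ : Subgroup G,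
        DiscreteTopology Γ₁ ∧ CompactSpace (G ⧸ Γ₁) ∧
        DiscreteTopology Γ₂ ∧ CompactSpace (G ⧸ Γ₂) ∧
        H.SameCayley Γ₁ Γ₂ ∧
        (∀ S : Set Γ₂, H.Gen S → H.RD S) ∧ (∀ S : Set Γ₁, H.Gen S → ¬ H.RD S) := by
  let _ : TopologicalSpace X := ⊥
  have : DiscreteTopology X := ⟨rfl⟩
  have hb : ∀ b : X → A, (∀ γ ∈ comm b, γ 1 = 1 → γ = 1) → (∀ q, ∃ γ ∈ comm b, γ 1 = q) →
      Function.Bijective fun γ : comm b => (γ : adj ≃r adj) 1 := fun b h1 h2 => by
    refine ⟨fun γ δ h => ?_, fun q => (h2 q).elim fun γ h => ⟨⟨γ, h.1⟩, h.2⟩⟩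
    have := h1 (δ⁻¹ * γ) (δ⁻¹ * γ).2 (by
      simp only at h
      simp [RelIso.mul_apply, h])
    exact (inv_mul_eq_one.1 (Subtype.ext this : δ⁻¹ * γ = 1)).symm
  have hg : ∀ b : X → A, ∀ x y : comm b, x⁻¹ * y ∈ gens (comm b) 1 ↔
      adj ((x : adj ≃r adj) 1) ((y : adj ≃r adj) 1) := fun b x y => by
    rw [← ((x : adj ≃r adj)⁻¹).map_rel_iff]
    simp [gens, RelIso.mul_apply]
  let e₁ := Equiv.ofBijective _ (hb bD comm_bD_free comm_bD_trans)
  let e₂ := Equiv.ofBijective _ (hb 0 comm_zero_free comm_zero_trans)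
  refine ⟨adj ≃r adj, inferInstance, inferInstance, inferInstance,
    locallyCompact_aut adj_finite 1 adj_conn, inferInstance,
    isEmbedding_pairMap.secondCountableTopology,
    isEmbedding_pairMap.isTotallyDisconnected_range.1
      (isTotallyDisconnected_of_totallyDisconnectedSpace _),
    compactly_generated adj_refl adj_finite 1 adj_conn
      fun q => (comm_zero_trans q).imp fun _ h => h.2, comm bD, comm 0,
    discrete_of_free _ 1 comm_bD_free,
    cocompact_of_transitive adj_finite 1 adj_conn _ comm_bD_trans,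
    discrete_of_free _ 1 comm_zero_free,
    cocompact_of_transitive adj_finite 1 adj_conn _ comm_zero_trans,
    ⟨gens _ 1, gens _ 1, e₁.trans e₂.symm, ⟨gens_finite adj_finite _ _ comm_bD_free,
      closure_gens adj_refl _ _ (adj_conn 1) comm_bD_trans⟩,
      ⟨gens_finite adj_finite _ _ comm_zero_free,
      closure_gens adj_refl _ _ (adj_conn 1) comm_zero_trans⟩, fun x y => ?_⟩,
    fun S ⟨h1, h2⟩ => ?_, fun S ⟨h1, h2⟩ h => not_rd_comm_bD ⟨S, h1, h2, h.ball h2⟩⟩
  · rw [hg, hg]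
    have : ∀ z, ((e₁.trans e₂.symm z : comm 0) : adj ≃r adj) 1 = (z : adj ≃r adj) 1 :=
      fun z => e₂.apply_symm_apply (e₁ z)
    rw [this, this]
  · obtain ⟨T, -, hT, h⟩ := rd_comm_zero
    exact (H.Ball.change h hT h1).rd h2

end Pool.Agent.Results.MP_3426c0_an.SameCayleyGraph
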